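import Pool.Agent.X333.MS.Curve

/-!
Special and Brody-special varieties given by nested sums of high powers of monomials.
-/

set_option autoImplicit false

open FF MvPolynomial Pool.Agent.W603.LV Pool.Agent.W602.GT Pool.Agent.TH710.ND Pool.Agent.TH710.NW

namespace Pool.Agent.X333.MS

variable {n : ℕ} {ι : Type}

/-- `V` is the closure of an orbit of a torus of diagonal matrices, of dimension `w`: for the generic
point `y`, `y j / y i0 = c j * ∏ l, σ l ^ b j l` if `y j ≠ 0`, where the `σ l` are algebraically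
independent and generate the function field. -/
def TorusOrbit (k : Type) [Field k] {K : Type} [Field K] [Algebra k K] (w : ℕ)
    (y : Fin (n + 1) → K) : Prop :=
  ∃ (i0 : Fin (n + 1)) (σ : Fin w → K) (b : Fin (n + 1) → Fin w → ℤ)
    (a : Fin w → Fin (n + 1) → ℤ) (c : Fin (n + 1) → k), TorFrame k w y i0 σ b a c

section alg

variable {k : Type} [Field k] [IsAlgClosed k] [CharZero k]

/-- special implies toric -/
theorem orbit_of_special {U : Set (Fin (n + 1))} {F : ι → MvPolynomial (Fin (n + 1)) k}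
    {s N h : ℕ} (hF : ∀ e, IsForm (F e) ∧ NestedIn IsMono s N h (F e)) (hN : bnd n s h ≤ N)
    {K : Type} [Field K] [Algebra k K] {w : ℕ} {y : Fin (n + 1) → K} (hy : SubVarU U F K w y)
    (hcomp : IsComponentU U F y) {Bd : Place k K → Prop} (hs : Special k K w Bd) :
    TorusOrbit k w y := by
  have halg : Algebra.IsAlgebraic (coords k y) K := by
    rw [hy.gen]
    infer_instance
  have hwn := dim_le hy.ne halg hy.dim
  obtain ⟨i0, σ, b, a, c, hT, -⟩ := tor_frame_of hy hcomp (fun i0 b hi0 _ hoff hb e v =>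
    wc_of_const (fun i => (hF i).1) (fun i => (hF i).2) (le_trans (by unfold bnd; omega) hN) hi0
      hy.mem (const_special (Lf := IsMono) (y := nrm y i0) ((bnd_mono hwn).trans hN) hy.dim hs)
      hoff hb e v)
  exact ⟨i0, σ, b, a, c, hT⟩

theorem special_iff_orbit {U : Set (Fin (n + 1))} {F : ι → MvPolynomial (Fin (n + 1)) k}
    {s N h : ℕ} (hF : ∀ e, IsForm (F e) ∧ NestedIn IsMono s N h (F e)) (hN : bnd n s h ≤ N)
    {K : Type} [Field K] [Algebra k K] {w : ℕ} {y : Fin (n + 1) → K} (hy : SubVarU U F K w y)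
    (hcomp : IsComponentU U F y) : Special k K w (OffU U y) ↔ TorusOrbit k w y := by
  refine ⟨orbit_of_special hF hN hy hcomp, ?_⟩
  rintro ⟨i0, σ, b, a, c, hT⟩
  exact hT.special hy.unit

end alg

/-- **The equivalences.** -/
theorem special_tfae {U : Set (Fin (n + 1))} {F : ι → MvPolynomial (Fin (n + 1)) ℂ}
    {s N h : ℕ} (hF : ∀ e, IsForm (F e) ∧ NestedIn IsMono s N h (F e)) (hN : bnd n s h ≤ N)
    (hN2 : (2 * s) ^ 2 ≤ N)
    {K : Type} [Field K] [Algebra ℂ K] {w : ℕ} {y : Fin (n + 1) → K} (hy : SubVarU U F K w y)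
    (hcomp : IsComponentU U F y) :
    [Special ℂ K w (OffU U y), BrodySpecial U y, TorusOrbit ℂ w y].TFAE := by
  have hN1 : 1 ≤ N := le_trans (by unfold bnd; omega) hN
  tfae_have 1 ↔ 3 := special_iff_orbit hF hN hy hcomp
  tfae_have 3 → 2 := by
    rintro ⟨i0, σ, b, a, c, hT⟩
    exact hT.brody hy.unit
  tfae_have 2 → 3 := by
    rintro ⟨f, hfd, hfV, hfG⟩
    obtain ⟨i0, σ, b, a, c, hT, -⟩ := tor_frame_of hy hcomp (fun i0 b hi0 _ hoff hb e v =>
      wc_of_curve (fun i => (hF i).1) (fun i => towerM_of hN2 hN1 (hF i).2) hi0 hy.mem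
        (fun j => (differentiable_pi.1 hfd) j) (fun z G hG h0 => (hfV z).1.2 G hG h0) hfG hoff hb
        e v)
    exact ⟨i0, σ, b, a, c, hT⟩
  tfae_finish

end Pool.Agent.X333.MS
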