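import Pool.Agent.X333.MS.Frame
import Pool.Agent.TH710.ND.Dich
import Pool.Agent.TH710.SP.Core
import Pool.Agent.W602.GT.PsOrb

/-!
Special varieties given by nested sums of high powers of monomials: weights.
-/

set_option autoImplicit false

open FF MvPolynomial IntermediateField Pool.Agent.W603.LV Pool.Agent.W602.GT Pool.Agent.TH710.ND

namespace Pool.Agent.X333.MS

variable {k : Type} [Field k] {σ ι : Type}

theorem root_bot [IsAlgClosed k] {K : Type} [Field K] [Algebra k K] :
    Root (⊥ : IntermediateField k K) := by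
  intro z d hd hz
  rw [IntermediateField.mem_bot] at hz ⊢
  obtain ⟨c, hc⟩ := hz
  have h1 : IsAlgebraic k (z ^ d) := by
    rw [← hc]
    exact isAlgebraic_algebraMap c
  obtain ⟨c', hc'⟩ := const_of_algebraic (h1.of_pow hd)
  exact ⟨c', hc'.symm⟩

/-- If all ratios of the circuits are constant, then the equations are preserved by the
specialisations which preserve the constant ratios of the leaves. -/
theorem spec_of_const [IsAlgClosed k] [CharZero k] {Lf : MvPolynomial σ k → Prop}
    {F : ι → MvPolynomial σ k} {s N h : ℕ} (hF : ∀ i, NestedIn Lf s N h (F i)) {K : Type}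
    [Field K] [Algebra k K] (hN1 : 1 ≤ N) {y : σ → K}
    (hmem : ∀ i, aeval y (F i) = 0) {Bd : Place k K → Prop}
    (hc : ∀ c' A, Gen Bd N (2 * s) ((h + 1) * (2 * s * (2 * s))) (fun _ => 0) Lf y c' A →
      A.In ⊥)
    (M : Type) [CommRing M] [Algebra k M] [Algebra K M] [IsScalarTower k K M] (x : σ → M)
    (hE : Env (⊥ : IntermediateField k K) Lf y x) (i : ι) : aeval x (F i) = 0 := by
  have hroot : Root (⊥ : IntermediateField k K) := root_bot
  obtain ⟨r, e, L, c, g, hr, he, hL1, hL2, hg, hFe⟩ := hF i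
  have hbig : Big N (2 * s) L := by
    intro ke hke
    obtain ⟨h1, h2, h3⟩ := hL2 ke hke
    exact ⟨by omega, h3, by omega⟩
  have hlen : 0 + 2 * s * (2 * s) + L.length * (2 * s * (2 * s)) ≤
      (h + 1) * (2 * s * (2 * s)) := by
    nlinarith [Nat.mul_le_mul_right (2 * s * (2 * s)) hL1]
  have hlen' : L.length * (2 * s * (2 * s)) ≤ (h + 1) * (2 * s * (2 * s)) :=
    Nat.mul_le_mul_right _ (by omega)
  obtain ⟨ihz, ihp⟩ := gate_rel hroot hc hE L hbig
  have h4 := pow_terms (o := fun _ => 0) (Bd := Bd) (N := N) (Gen.empty (Lf := Lf)) hbig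
    he (by omega) hlen
    (fun i => algebraMap k K (c i)) g x (by
      have h2 := hmem i
      rw [hFe, aeval_sum_pow] at h2
      exact h2) (by rw [Fintype.card_fin]; omega) (fun j => Term.gate _ _ (hg j))
    (fun j hj => ⟨fun P _ _ => ord_alg P hj, fun W _ _ => W.algebraMap_mem _⟩)
    (fun j hj => ihz hlen' (g j) (hg j) hj)
    (fun B hB i j hi hj hl => ihp _ B hB hlen (g i) (g j) (hg i) (hg j) hi hj hl)
  simp only [← IsScalarTower.algebraMap_apply] at h4
  rw [hFe, aeval_sum_pow]
  exact h4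

/-- Special varieties: all ratios are constant. -/
theorem const_special [IsAlgClosed k] [CharZero k] {Lf : MvPolynomial σ k → Prop}
    {s N h : ℕ} {K : Type} [Field K] [Algebra k K] {w : ℕ} (hN : bnd w s h ≤ N) {y : σ → K}
    (hdim : Algebra.trdeg k K = w) {Bd : Place k K → Prop} (hs : Special k K w Bd) :
    ∀ c' A, Gen Bd N (2 * s) ((h + 1) * (2 * s * (2 * s))) (fun _ => 0) Lf y c' A →
      A.In ⊥ := by
  let G : CFam k K → Prop := fun A => ∃ c',
    Gen Bd N (2 * s) ((h + 1) * (2 * s * (2 * s))) (fun _ => 0) Lf y c' A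
  have hGok : ∀ A, G A → A.Ok Bd N (2 * s) ((h + 1) * (2 * s * (2 * s))) := by
    rintro A ⟨c', hA⟩
    exact hA.ok.1.mono hA.ok.2
  intro c' A hA i a b
  obtain ⟨c, hc⟩ := Pool.Agent.TH710.SP.const_of_special hdim G hGok (by
    unfold bnd at hN
    omega) hs A ⟨c', hA⟩ i a b
  rw [hc]
  exact IntermediateField.algebraMap_mem _ _

variable {n : ℕ}

/-- the coordinates divided by one of them -/
noncomputable def nrm {K : Type} [Field K] (y : Fin (n + 1) → K) (i0 : Fin (n + 1)) :
    Fin (n + 1) → K := fun j => y j / y i0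

theorem val_nrm {K : Type} [Field K] [Algebra k K] {y : Fin (n + 1) → K} {i0 : Fin (n + 1)}
    (hi0 : y i0 ≠ 0) {G : MvPolynomial (Fin (n + 1)) k} (hG : IsForm G) :
    val (nrm y i0) G = 0 ↔ val y G = 0 := by
  obtain ⟨d, hd⟩ := hG
  have h1 : val y G = y i0 ^ d * val (nrm y i0) G := by
    rw [← val_smul hd]
    congr 1
    funext j
    simp only [nrm]
    field_simp
  rw [h1, mul_eq_zero, or_iff_right (pow_ne_zero _ hi0)]

/-- **The weights of a special variety.** -/
theorem wc_of_const [IsAlgClosed k] [CharZero k] {F : ι → MvPolynomial (Fin (n + 1)) k}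
    {s N h : ℕ} (hFf : ∀ i, IsForm (F i)) (hF : ∀ i, NestedIn IsMono s N h (F i)) (hN : 1 ≤ N)
    {K : Type} [Field K] [Algebra k K] {y : Fin (n + 1) → K} {i0 : Fin (n + 1)}
    (hi0 : y i0 ≠ 0) (hmem : ∀ i, val y (F i) = 0) {Bd : Place k K → Prop}
    (hc : ∀ c' A, Gen Bd N (2 * s) ((h + 1) * (2 * s * (2 * s))) (fun _ => 0) IsMono (nrm y i0)
      c' A → A.In ⊥) {b : Fin (n + 1) → ℤ} (hoff : ∀ j, y j = 0 → b j = 0)
    (hb : ∀ γ : Fin (n + 1) → ℤ, (∃ c : k, chi (rr y i0) γ = algebraMap k K c) →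
      ∑ j, γ j * b j = 0) (e : ι) (v : ℤ) : val y (wc b v (F e)) = 0 := by
  have hK : CharZero K := charZero_of_injective_algebraMap (algebraMap k K).injective
  have hinf : Infinite K := inferInstance
  rw [← val_nrm hi0 (wc_form (hFf e) b v)]
  obtain ⟨M, R, hR1, -, hR3⟩ := orbit_poly (k := k) (nrm y i0) b (F e)
  refine hR3 (poly_zero fun t ht => ?_) v
  rw [hR1 t ht]
  have h1 : val (fun j => t ^ b j * nrm y i0 j) (F e) = 0 := by
    refine spec_of_const hF hN (fun i => (val_nrm hi0 (hFf i)).2 (hmem i)) hc K _ ⟨?_, ?_⟩ e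
    · rintro p ⟨α, a, rfl⟩ h
      rw [aeval_mono] at h ⊢
      rw [torus_mono (nrm y i0) b ht, mul_left_comm, h, mul_zero]
    · rintro p q ⟨α, a, rfl⟩ ⟨β, c, rfl⟩ hp hq hW
      rw [aeval_mono] at hp hq
      rw [aeval_mono, aeval_mono] at hW
      have ha : algebraMap k K a ≠ 0 := left_ne_zero_of_mul hp
      have hc0 : algebraMap k K c ≠ 0 := left_ne_zero_of_mul hq
      have hsup : ∀ γ : Fin (n + 1) →₀ ℕ, ∏ j, nrm y i0 j ^ γ j ≠ 0 →
          ∏ j, nrm y i0 j ^ γ j = ∏ j, rr y i0 j ^ γ j := by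
        intro γ hγ
        refine Finset.prod_congr rfl fun j hj => ?_
        by_cases h0 : y j = 0
        · have h2 := Finset.prod_ne_zero_iff.1 hγ j hj
          simp only [nrm, h0, zero_div] at h2 ⊢
          have h3 : γ j = 0 := by
            by_contra h3
            exact h2 (zero_pow h3)
          rw [h3, pow_zero, pow_zero]
        · rw [rr_on h0]
          rfl
      have h5 := hb (fun j => (α j : ℤ) - (β j : ℤ)) (by
        rw [IntermediateField.mem_bot] at hW
        obtain ⟨z, hz⟩ := hW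
        refine ⟨z * c / a, ?_⟩
        have h2 : chi (rr y i0) (fun j => (α j : ℤ) - (β j : ℤ)) =
            (∏ j, rr y i0 j ^ α j) / ∏ j, rr y i0 j ^ β j := by
          unfold chi
          rw [← Finset.prod_div_distrib]
          refine Finset.prod_congr rfl fun j _ => ?_
          rw [zpow_sub₀ (rr_ne hi0 j), zpow_natCast, zpow_natCast]
        rw [h2, ← hsup α (right_ne_zero_of_mul hp), ← hsup β (right_ne_zero_of_mul hq),
          map_div₀, map_mul, hz]
        have h6 := right_ne_zero_of_mul hq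
        field_simp)
      simp only [sub_mul, Finset.sum_sub_distrib] at h5
      rw [aeval_mono, aeval_mono, aeval_mono, aeval_mono, torus_mono _ b ht, torus_mono _ b ht,
        sub_eq_zero.1 h5]
      change algebraMap k K a * (t ^ (∑ j, (β j : ℤ) * b j) * ∏ j, nrm y i0 j ^ α j) *
        (algebraMap k K c * ∏ j, nrm y i0 j ^ β j) = algebraMap k K a *
        (∏ j, nrm y i0 j ^ α j) *
        (algebraMap k K c * (t ^ (∑ j, (β j : ℤ) * b j) * ∏ j, nrm y i0 j ^ β j))
      ring
  rw [h1, mul_zero]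

end Pool.Agent.X333.MS
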