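import Pool.Agent.X333.MS.Rat
import Pool.Agent.TH710.WH.Five

/-!
Rationally connected varieties given by nested sums of high powers of monomials are orbit closures.
-/

set_option autoImplicit false

open FF MvPolynomial Pool.Agent.W603.LV Pool.Agent.W602.GT Pool.Agent.TH710.ND
open Pool.Agent.TH710.SP (NoTensors)
open Pool.Agent.TH710.WH (PurelyTranscendental Unirational RationallyConnected special_ratFunc
  trdeg_ratFunc connected_of_unirational special_of_rational)

namespace Pool.Agent.X333.MS

variable {n : ℕ} {ι : Type} {k : Type} [Field k]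

theorem gate_mono_map {k1 : Type} [Field k1] (φ : k →+* k1) (L : List (ℕ × ℕ)) :
    ∀ p : MvPolynomial (Fin (n + 1)) k, GateL IsMono L p →
      GateL IsMono L (MvPolynomial.map φ p) := by
  induction L with
  | nil =>
    rintro p ⟨α, a, rfl⟩
    exact ⟨α, φ a, by rw [map_monomial]⟩
  | cons ke L ih =>
    rintro p ⟨c, g, hg, rfl⟩
    refine ⟨fun i => φ (c i), fun i => MvPolynomial.map φ (g i), fun i => ih _ (hg i), ?_⟩
    simp only [map_sum, map_mul, map_C, map_pow]

theorem nested_mono_map {k1 : Type} [Field k1] (φ : k →+* k1) {s N h : ℕ}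
    {F : MvPolynomial (Fin (n + 1)) k} (hF : NestedIn IsMono s N h F) :
    NestedIn IsMono s N h (MvPolynomial.map φ F) := by
  obtain ⟨r, e, L, c, g, h1, h2, h3, h4, h5, h6⟩ := hF
  refine ⟨r, e, L, fun i => φ (c i), fun i => MvPolynomial.map φ (g i), h1, h2, h3, h4,
    fun i => gate_mono_map φ L _ (h5 i), ?_⟩
  rw [h6]
  simp only [map_sum, map_mul, map_C, map_pow]

theorem wc_map {k1 : Type} [Field k1] (φ : k →+* k1) (b : Fin (n + 1) → ℤ) (v : ℤ)
    (F : MvPolynomial (Fin (n + 1)) k) :
    wc b v (MvPolynomial.map φ F) = MvPolynomial.map φ (wc b v F) := by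
  classical
  unfold wc
  rw [support_map_of_injective _ φ.injective, map_sum]
  refine Finset.sum_congr rfl fun α _ => ?_
  rw [map_monomial, coeff_map]

theorem form_map {k1 : Type} [Field k1] (φ : k →+* k1) {F : MvPolynomial (Fin (n + 1)) k}
    (hF : IsForm F) : IsForm (MvPolynomial.map φ F) := by
  obtain ⟨d, hd⟩ := hF
  exact ⟨d, hd.map φ⟩

theorem val_of_varPts [IsAlgClosed k] {K : Type} [Field K] [Algebra k K] {y : Fin (n + 1) → K}
    {i0 : Fin (n + 1)} (hi0 : y i0 ≠ 0) {G : MvPolynomial (Fin (n + 1)) k}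
    (h : ∀ x ∈ VarPts k y, val x G = 0) : val y G = 0 := by
  by_contra hne
  obtain ⟨z, hz1, hz2⟩ := specialise y (G * X i0) (by
    rw [map_mul, aeval_X]
    exact mul_ne_zero hne hi0)
  rw [map_mul, aeval_X] at hz1
  refine left_ne_zero_of_mul hz1 (h z ⟨?_, fun H _ hH => hz2 H hH⟩)
  intro h0
  apply right_ne_zero_of_mul hz1
  rw [h0]
  rfl

/-- **Rationally connected varieties.** -/
theorem orbit_of_connected [IsAlgClosed k] [CharZero k] (hn : 1 ≤ n) {U : Set (Fin (n + 1))}
    {F : ι → MvPolynomial (Fin (n + 1)) k} {s N h : ℕ}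
    (hF : ∀ e, IsForm (F e) ∧ NestedIn IsMono s N h (F e)) (hN : bnd n s h ≤ N)
    {K : Type} [Field K] [Algebra k K] {w : ℕ} {y : Fin (n + 1) → K} (hy : SubVarU U F K w y)
    (hcomp : IsComponentU U F y) (hc : RationallyConnected k y) : TorusOrbit k w y := by
  classical
  obtain ⟨Ω, _, _, f, hΩ, hf, hgp⟩ := hc
  have hch : CharZero Ω := charZero_of_injective_algebraMap (algebraMap k Ω).injective
  have hinf : Infinite Ω := inferInstance
  let yf : Fin (n + 1) → RatFunc Ω := fun j => algebraMap (Polynomial Ω) (RatFunc Ω) (f j)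
  have hinj := RatFunc.algebraMap_injective Ω
  -- polynomials at the curve
  have hvalf : ∀ G : MvPolynomial (Fin (n + 1)) k,
      val yf (MvPolynomial.map (algebraMap k Ω) G) =
        algebraMap (Polynomial Ω) (RatFunc Ω) (aeval f G) := by
    intro G
    unfold Pool.Agent.W602.GT.val
    rw [aeval_map_algebraMap]
    exact (MvPolynomial.comp_aeval_apply (f := f)
      ((IsScalarTower.toAlgHom Ω (Polynomial Ω) (RatFunc Ω)).restrictScalars k) G).symm
  have hval0 : ∀ (G : MvPolynomial (Fin (n + 1)) k) (u : Ω),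
      (aeval f G).eval u = aeval (fun i => (f i).eval u) G := by
    intro G u
    have h1 := MvPolynomial.comp_aeval_apply (f := f)
      ((Polynomial.aeval u : Polynomial Ω →ₐ[Ω] Ω).restrictScalars k) G
    simp only [AlgHom.restrictScalars_apply, Polynomial.coe_aeval_eq_eval] at h1
    exact h1
  -- forms which vanish along the curve vanish at the generic point
  have hback : ∀ G : MvPolynomial (Fin (n + 1)) k, aeval f G = 0 → ∀ i0, y i0 ≠ 0 →
      val y G = 0 := by
    intro G hG i0 hi0
    refine val_of_varPts hi0 fun x hx => ?_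
    have h1 := hgp (rename Sum.inl G) (by
      rw [aeval_rename]
      have h2 := hval0 G 0
      rw [hG, Polynomial.eval_zero] at h2
      exact h2.symm) x hx x hx
    rw [aeval_rename] at h1
    exact h1
  obtain ⟨i0, σ, b, a, c, hT, -⟩ := tor_frame_of hy hcomp (fun i0 b hi0 hbi0 hoff hb e v => by
    have hfj : ∀ j, f j = 0 ↔ y j = 0 := by
      intro j
      constructor
      · intro h0
        have h1 := hback (X j) (by rw [aeval_X, h0]) i0 hi0
        unfold Pool.Agent.W602.GT.val at h1
        rwa [aeval_X] at h1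
      · intro h0
        have h1 := hf (X j) ⟨1, isHomogeneous_X _ j⟩ (by
          unfold Pool.Agent.W602.GT.val
          rw [aeval_X, h0])
        rwa [aeval_X] at h1
    have hyfj : ∀ j, yf j = 0 ↔ y j = 0 := fun j => by
      rw [← hfj j]
      exact map_eq_zero_iff _ hinj
    have hyi0 : yf i0 ≠ 0 := fun h0 => hi0 ((hyfj i0).1 h0)
    have hkey := wc_of_const (k := Ω) (K := RatFunc Ω) (y := yf) (i0 := i0) (b := b)
      (F := fun e => MvPolynomial.map (algebraMap k Ω) (F e)) (N := N) (s := s) (h := h)
      (Bd := fun _ => False)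
      (fun i => form_map _ (hF i).1) (fun i => nested_mono_map _ (hF i).2)
      (le_trans (by unfold bnd; omega) hN) hyi0 (fun i => by
        rw [hvalf, hf (F i) (hF i).1 (hy.mem i), map_zero])
      (const_special (Lf := IsMono) (y := nrm yf i0) ((bnd_mono hn).trans hN) trdeg_ratFunc
        special_ratFunc)
      (fun j hj => hoff j ((hyfj j).1 hj)) ?_ e v
    · rw [wc_map, hvalf] at hkey
      exact hback _ (hinj (by rw [hkey, map_zero])) i0 hi0
    · -- constant monomials along the curve are constant
      rintro γ ⟨ω, hω⟩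
      let S : Finset (Fin (n + 1)) := Finset.univ.filter fun j => y j ≠ 0
      have hSy : ∀ j, j ∈ S ↔ y j ≠ 0 := fun j => by simp [S]
      have hSi0 : i0 ∈ S := (hSy i0).2 hi0
      let γ' : Fin (n + 1) → ℤ := fun j =>
        if j = i0 then -∑ l ∈ S.erase i0, γ l else γ j
      have hγ'i0 : γ' i0 = -∑ l ∈ S.erase i0, γ l := if_pos rfl
      have hγ'j : ∀ j, j ≠ i0 → γ' j = γ j := fun j hj => if_neg hj
      have hsum : ∑ j ∈ S, γ' j = 0 := by
        rw [← Finset.add_sum_erase S _ hSi0, hγ'i0, Finset.sum_congr rfl fun l hl =>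
          hγ'j l (Finset.ne_of_mem_erase hl), neg_add_cancel]
      have hchi : ∀ (M : Type) [Field M] (z : Fin (n + 1) → M), z i0 ≠ 0 →
          chi (rr z i0) γ' = chi (rr z i0) γ := by
        intro M _ z hz
        unfold chi
        refine Finset.prod_congr rfl fun j _ => ?_
        by_cases hj : j = i0
        · rw [hj, rr_on hz, div_self hz, one_zpow, one_zpow]
        · rw [hγ'j j hj]
      have hgb : ∑ j, γ j * b j = ∑ j, γ' j * b j := by
        refine Finset.sum_congr rfl fun j _ => ?_
        by_cases hj : j = i0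
        · rw [hj, hbi0, mul_zero, mul_zero]
        · rw [hγ'j j hj]
      rw [hgb]
      apply hb
      let α : Fin (n + 1) →₀ ℕ := Finsupp.equivFunOnFinite.symm
        fun j => if j ∈ S then (γ' j).toNat else 0
      let β : Fin (n + 1) →₀ ℕ := Finsupp.equivFunOnFinite.symm
        fun j => if j ∈ S then (-γ' j).toNat else 0
      have hα : ∀ j, α j = if j ∈ S then (γ' j).toNat else 0 := fun j => rfl
      have hβ : ∀ j, β j = if j ∈ S then (-γ' j).toNat else 0 := fun j => rfl
      have hαβ : ∀ j ∈ S, (α j : ℤ) - β j = γ' j := by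
        intro j hj
        rw [hα, hβ, if_pos hj, if_pos hj]
        omega
      have hα0 : ∀ j, j ∉ S → α j = 0 := fun j hj => by rw [hα, if_neg hj]
      have hβ0 : ∀ j, j ∉ S → β j = 0 := fun j hj => by rw [hβ, if_neg hj]
      have hdeg : ∑ j, α j = ∑ j, β j := by
        have h1 : ∑ j, (α j : ℤ) = ∑ j, (β j : ℤ) := by
          rw [← sub_eq_zero, ← Finset.sum_sub_distrib, ← hsum]
          symm
          rw [← Finset.sum_subset (Finset.subset_univ S) (fun j _ hj => by
            rw [hα0 j hj, hβ0 j hj]
            simp)]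
          exact Finset.sum_congr rfl fun j hj => (hαβ j hj).symm
        exact_mod_cast h1
      -- the character in terms of monomials
      have hmon : ∀ (M : Type) [Field M] (z : Fin (n + 1) → M), z i0 ≠ 0 →
          (∀ j, z j = 0 ↔ y j = 0) →
          chi (rr z i0) γ' = (∏ j, z j ^ α j) / ∏ j, z j ^ β j := by
        intro M _ z hz hz0
        have hpw : ∀ δ : Fin (n + 1) →₀ ℕ, (∀ j, j ∉ S → δ j = 0) →
            ∏ j, z j ^ δ j = z i0 ^ (∑ j, δ j) * ∏ j, rr z i0 j ^ δ j := by
          intro δ hδ
          rw [← Finset.prod_pow_eq_pow_sum, ← Finset.prod_mul_distrib]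
          refine Finset.prod_congr rfl fun j _ => ?_
          by_cases hj : j ∈ S
          · have h1 : z j ≠ 0 := fun h0 => (hSy j).1 hj ((hz0 j).1 h0)
            rw [rr_on h1, ← mul_pow]
            congr 1
            field_simp
          · rw [hδ j hj, pow_zero, pow_zero, pow_zero, one_mul]
        rw [hpw α hα0, hpw β hβ0, hdeg, mul_div_mul_left _ _ (pow_ne_zero _ hz)]
        unfold chi
        rw [← Finset.prod_div_distrib]
        refine Finset.prod_congr rfl fun j _ => ?_
        by_cases hj : j ∈ S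
        · rw [← zpow_natCast, ← zpow_natCast, ← zpow_sub₀ (rr_ne hz j), hαβ j hj]
        · have h0 : z j = 0 := by
            by_contra h0
            exact hj ((hSy j).2 fun h1 => h0 ((hz0 j).2 h1))
          rw [rr_off h0, one_zpow, one_pow, one_pow, div_one]
      have hω' : (∏ j, yf j ^ α j) / ∏ j, yf j ^ β j = algebraMap Ω (RatFunc Ω) ω := by
        rw [← hmon _ yf hyi0 hyfj, hchi _ yf hyi0, hω]
      have hβne : ∏ j, yf j ^ β j ≠ 0 := by
        refine Finset.prod_ne_zero_iff.2 fun j _ => ?_
        by_cases hj : j ∈ S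
        · exact pow_ne_zero _ fun h0 => (hSy j).1 hj ((hyfj j).1 h0)
        · rw [hβ0 j hj, pow_zero]
          exact one_ne_zero
      have hpol : ∏ j, f j ^ α j = Polynomial.C ω * ∏ j, f j ^ β j := by
        apply hinj
        rw [map_prod, map_mul, map_prod]
        simp only [map_pow]
        rw [div_eq_iff hβne] at hω'
        rw [IsScalarTower.algebraMap_apply Ω (Polynomial Ω) (RatFunc Ω)] at hω'
        exact hω'
      have hev : ∀ u : Ω, ∏ j, (f j).eval u ^ α j = ω * ∏ j, (f j).eval u ^ β j := by
        intro u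
        have h1 := congrArg (Polynomial.eval u) hpol
        rw [Polynomial.eval_prod, Polynomial.eval_mul, Polynomial.eval_C,
          Polynomial.eval_prod] at h1
        simpa only [Polynomial.eval_pow] using h1
      -- all points of `V × V`
      have hpair : ∀ x ∈ VarPts k y, ∀ x' ∈ VarPts k y,
          (∏ j, x j ^ α j) * ∏ j, x' j ^ β j = (∏ j, x j ^ β j) * ∏ j, x' j ^ α j := by
        intro x hx x' hx'
        have hG : ∀ (R : Type) [Field R] [Algebra k R] (u v : Fin (n + 1) → R),
            aeval (Sum.elim u v)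
              (rename Sum.inl (monomial α (1 : k)) * rename Sum.inr (monomial β (1 : k)) -
              rename Sum.inl (monomial β (1 : k)) * rename Sum.inr (monomial α (1 : k)) :
                MvPolynomial (Fin (n + 1) ⊕ Fin (n + 1)) k) =
            (∏ j, u j ^ α j) * (∏ j, v j ^ β j) - (∏ j, u j ^ β j) * ∏ j, v j ^ α j := by
          intro R _ _ u v
          simp only [map_sub, map_mul, aeval_rename, Sum.elim_comp_inl, Sum.elim_comp_inr,
            aeval_mono, map_one, one_mul]
        have h1 := hgp _ (by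
            rw [hG, hev 0, hev 1]
            ring) x hx x' hx'
        rw [hG] at h1
        exact sub_eq_zero.1 h1
      obtain ⟨z0, hz1, hz2⟩ := specialise y (∏ j ∈ S, (X j : MvPolynomial (Fin (n + 1)) k)) (by
        rw [map_prod]
        simp only [aeval_X]
        exact Finset.prod_ne_zero_iff.2 fun j hj => (hSy j).1 hj)
      rw [map_prod] at hz1
      simp only [aeval_X] at hz1
      have hz0 : ∀ j ∈ S, z0 j ≠ 0 := Finset.prod_ne_zero_iff.1 hz1
      have hzV : z0 ∈ VarPts k y := ⟨fun h0 => hz0 i0 hSi0 (by rw [h0]; rfl),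
        fun H _ hH => hz2 H hH⟩
      have hzne : ∀ δ : Fin (n + 1) →₀ ℕ, (∀ j, j ∉ S → δ j = 0) → ∏ j, z0 j ^ δ j ≠ 0 := by
        intro δ hδ
        refine Finset.prod_ne_zero_iff.2 fun j _ => ?_
        by_cases hj : j ∈ S
        · exact pow_ne_zero _ (hz0 j hj)
        · rw [hδ j hj, pow_zero]
          exact one_ne_zero
      have hmv : ∀ (L : Type) [Field L] [Algebra k L] (x : Fin (n + 1) → L) (c0 c1 : k),
          val x (monomial α c0 - monomial β c1 : MvPolynomial (Fin (n + 1)) k) =
            algebraMap k L c0 * (∏ j, x j ^ α j) - algebraMap k L c1 * ∏ j, x j ^ β j := by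
        intro L _ _ x c0 c1
        unfold Pool.Agent.W602.GT.val
        rw [map_sub, aeval_mono, aeval_mono]
      have h1 := val_of_varPts hi0 (G := monomial α (∏ j, z0 j ^ β j) -
        monomial β (∏ j, z0 j ^ α j)) (fun x hx => by
          rw [hmv]
          simp only [Algebra.algebraMap_self, RingHom.id_apply]
          linear_combination hpair x hx z0 hzV)
      rw [hmv, sub_eq_zero] at h1
      refine ⟨(∏ j, z0 j ^ α j) / ∏ j, z0 j ^ β j, ?_⟩
      rw [hmon _ y hi0 (fun j => Iff.rfl), map_div₀]
      have h2 : algebraMap k K (∏ j, z0 j ^ β j) ≠ 0 := by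
        rw [Ne, map_eq_zero]
        exact hzne β hβ0
      have h3 : ∏ j, y j ^ β j ≠ 0 := by
        refine Finset.prod_ne_zero_iff.2 fun j _ => ?_
        by_cases hj : j ∈ S
        · exact pow_ne_zero _ ((hSy j).1 hj)
        · rw [hβ0 j hj, pow_zero]
          exact one_ne_zero
      rw [div_eq_div_iff h3 h2]
      linear_combination h1)
  exact ⟨i0, σ, b, a, c, hT⟩

/-- **Six properties.** -/
theorem proj_tfae [IsAlgClosed k] [CharZero k] (hn : 1 ≤ n)
    {F : ι → MvPolynomial (Fin (n + 1)) k} {s N h : ℕ}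
    (hF : ∀ e, IsForm (F e) ∧ NestedIn IsMono s N h (F e)) (hN : bnd n s h ≤ N)
    {K : Type} [Field K] [Algebra k K] {w : ℕ} {y : Fin (n + 1) → K} (hy : SubVarU ∅ F K w y)
    (hcomp : IsComponentU ∅ F y) :
    [TorusOrbit k w y, PurelyTranscendental k K, Unirational k y, RationallyConnected k y,
      Special k K w (fun _ => False), NoTensors k K w ((bnd n s h - 1) * n),
      ∀ B, NoTensors k K w B].TFAE := by
  have hinf : Infinite k := inferInstance
  tfae_have 1 → 2 := rational_of_orbit
  tfae_have 2 → 5 := special_of_rational hy.dim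
  tfae_have 5 → 1 := orbit_of_special hF hN hy hcomp
  tfae_have 1 → 3 := unirational_of_orbit
  tfae_have 3 → 4 := connected_of_unirational
  tfae_have 4 → 1 := orbit_of_connected hn hF hN hy hcomp
  tfae_have 2 → 7 := fun h B => Pool.Agent.Y216.SV.noTensors_of_rational hy.dim h B
  tfae_have 7 → 6 := fun h => h _
  tfae_have 6 → 1 := orbit_of_noTensors hF hN hy hcomp le_rfl
  tfae_finish

end Pool.Agent.X333.MS
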