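import Pool.Agent.X333.MS.Alg
import Pool.Agent.TH710.NW.Mono2
import Pool.Agent.TH710.ND.Lang
import Pool.Agent.W602.GT.SBroC

/-!
Zariski-dense entire curves in varieties given by nested sums of high powers of monomials: weights.
-/

set_option autoImplicit false

open MvPolynomial Pool.Agent.W602.GT Pool.Agent.TH710.ND Pool.Agent.TH710.NW
open Pool.Agent.H159R3.NV Pool.Agent.H159R3
open scoped Topology

namespace Pool.Agent.X333.MS

theorem zeros_countable {g : ℂ → ℂ} (hg : Differentiable ℂ g) {z : ℂ} (hz : g z ≠ 0) :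
    {w | g w = 0}.Countable := by
  have h1 : DiscreteTopology {w | g w = 0} := by
    rw [discreteTopology_subtype_iff]
    intro x _
    rw [← disjoint_iff, Filter.disjoint_principal_right]
    filter_upwards [ev_ne hg hz x] with w hw
    exact hw
  have h2 : Countable {w | g w = 0} := countable_of_Lindelof_of_discrete
  exact h2.to_set

theorem zero_of_off {g : ℂ → ℂ} (hg : Differentiable ℂ g) {B : Set ℂ} (hB : B.Countable)
    (h : ∀ z, z ∉ B → g z = 0) (z : ℂ) : g z = 0 := by
  by_contra hz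
  apply not_countable_complex
  refine (hB.union (zeros_countable hg hz)).mono fun w _ => ?_
  by_cases hw : w ∈ B
  · exact Or.inl hw
  · exact Or.inr (h w hw)

variable {n : ℕ}

/-- the numerator of the logarithmic derivative of a monomial -/
noncomputable def Bq (f : ℂ → Fin (n + 1) → ℂ) (S : Finset (Fin (n + 1))) (q : Fin (n + 1) → ℤ)
    (z : ℂ) : ℂ :=
  ∑ j ∈ S, (q j : ℂ) * (deriv (fun z => f z j) z * ∏ l ∈ S.erase j, f z l)

theorem Bq_diff {f : ℂ → Fin (n + 1) → ℂ} (hf : ∀ j, Differentiable ℂ fun z => f z j)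
    (S : Finset (Fin (n + 1))) (q : Fin (n + 1) → ℤ) : Differentiable ℂ (Bq f S q) := by
  unfold Bq
  apply Differentiable.fun_sum
  intro j _
  apply Differentiable.const_mul
  refine Differentiable.mul ((hf j).contDiff (n := 2)).differentiable_deriv_two ?_
  apply Differentiable.fun_finset_prod
  intro l _
  exact hf l

theorem Bq_eq {f : ℂ → Fin (n + 1) → ℂ} {S : Finset (Fin (n + 1))} (q : Fin (n + 1) → ℤ) {z : ℂ}
    (hz : ∀ j ∈ S, f z j ≠ 0) (hz' : ∀ j, j ∉ S → f z j = 0) :
    Bq f S q z = (∏ l ∈ S, f z l) * ∑ j, (q j : ℂ) * (deriv (fun z => f z j) z / f z j) := by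
  classical
  have h1 : ∑ j, (q j : ℂ) * (deriv (fun z => f z j) z / f z j) =
      ∑ j ∈ S, (q j : ℂ) * (deriv (fun z => f z j) z / f z j) := by
    refine (Finset.sum_subset (Finset.subset_univ S) fun j _ hj => ?_).symm
    rw [hz' j hj, div_zero, mul_zero]
  rw [h1, Finset.mul_sum]
  unfold Bq
  refine Finset.sum_congr rfl fun j hj => ?_
  rw [← Finset.mul_prod_erase S _ hj]
  have := hz j hj
  field_simp

/-- generic points of a curve -/
theorem generic_pt {f : ℂ → Fin (n + 1) → ℂ} (hf : ∀ j, Differentiable ℂ fun z => f z j)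
    {S : Finset (Fin (n + 1))} (hS : ∀ j ∈ S, ∃ z, f z j ≠ 0)
    (hS' : ∀ j, j ∉ S → ∀ z, f z j = 0) :
    ∃ B : Set ℂ, B.Countable ∧ ∀ z0, z0 ∉ B → (∀ j ∈ S, f z0 j ≠ 0) ∧
      ∀ q : Fin (n + 1) → ℤ, ∑ j, (q j : ℂ) * (deriv (fun z => f z j) z0 / f z0 j) = 0 →
        ∀ z, Bq f S q z = 0 := by
  classical
  refine ⟨(⋃ j ∈ S, {z | f z j = 0}) ∪ ⋃ q ∈ {q : Fin (n + 1) → ℤ | ∃ z, Bq f S q z ≠ 0},
    {z | Bq f S q z = 0}, ?_, ?_⟩
  · refine Set.Countable.union ?_ ?_
    · refine Set.Countable.biUnion (Finset.countable_toSet S) fun j hj => ?_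
      obtain ⟨z, hz⟩ := hS j hj
      exact zeros_countable (hf j) hz
    · refine Set.Countable.biUnion (Set.to_countable _) fun q hq => ?_
      obtain ⟨z, hz⟩ := hq
      exact zeros_countable (Bq_diff hf S q) hz
  · intro z0 hz0
    have h1 : ∀ j ∈ S, f z0 j ≠ 0 := by
      intro j hj h0
      apply hz0
      left
      simp only [Set.mem_iUnion]
      exact ⟨j, hj, h0⟩
    refine ⟨h1, fun q hq => ?_⟩
    by_contra hcon
    push Not at hcon
    apply hz0
    right
    simp only [Set.mem_iUnion]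
    refine ⟨q, hcon, ?_⟩
    change Bq f S q z0 = 0
    rw [Bq_eq q h1 (fun j hj => hS' j hj z0), hq, mul_zero]

/-- monomials with vanishing logarithmic derivatives are constant on the Zariski closure -/
theorem const_chi {K : Type} [Field K] [Algebra ℂ K] {y : Fin (n + 1) → K} {i0 : Fin (n + 1)}
    (hi0 : y i0 ≠ 0) {f : ℂ → Fin (n + 1) → ℂ} (hf : ∀ j, Differentiable ℂ fun z => f z j)
    {S : Finset (Fin (n + 1))} (hSy : ∀ j, j ∈ S ↔ y j ≠ 0) (hS : ∀ j ∈ S, ∃ z, f z j ≠ 0)
    (hS' : ∀ j, j ∉ S → ∀ z, f z j = 0)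
    (hfG : ∀ G : MvPolynomial (Fin (n + 1)) ℂ, IsForm G → (∀ z, val (f z) G = 0) → val y G = 0)
    {q : Fin (n + 1) → ℤ} (hq : ∀ z, Bq f S q z = 0) (hdeg : ∑ j ∈ S, q j = 0) :
    ∃ c : ℂ, chi (rr y i0) q = algebraMap ℂ K c := by
  classical
  obtain ⟨B, hB, hgen⟩ := generic_pt hf hS hS'
  let α : Fin (n + 1) →₀ ℕ := Finsupp.equivFunOnFinite.symm
    fun j => if j ∈ S then (q j).toNat else 0
  let β : Fin (n + 1) →₀ ℕ := Finsupp.equivFunOnFinite.symm
    fun j => if j ∈ S then (-q j).toNat else 0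
  have hα : ∀ j, α j = if j ∈ S then (q j).toNat else 0 := fun j => rfl
  have hβ : ∀ j, β j = if j ∈ S then (-q j).toNat else 0 := fun j => rfl
  have hαβ : ∀ j ∈ S, (α j : ℤ) - β j = q j := by
    intro j hj
    rw [hα, hβ, if_pos hj, if_pos hj]
    omega
  have hd : ∀ γ : Fin (n + 1) →₀ ℕ, Differentiable ℂ (fun z => ∏ j, f z j ^ γ j) := by
    intro γ
    apply Differentiable.fun_finset_prod
    intro j _
    exact (hf j).pow _
  have hne : ∀ z, (∀ j ∈ S, f z j ≠ 0) → ∀ γ : Fin (n + 1) →₀ ℕ, (∀ j, j ∉ S → γ j = 0) →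
      ∏ j, f z j ^ γ j ≠ 0 := by
    intro z hz γ hγ
    refine Finset.prod_ne_zero_iff.2 fun j _ => ?_
    by_cases hj : j ∈ S
    · exact pow_ne_zero _ (hz j hj)
    · rw [hγ j hj, pow_zero]
      exact one_ne_zero
  have hα0 : ∀ j, j ∉ S → α j = 0 := fun j hj => by rw [hα, if_neg hj]
  have hβ0 : ∀ j, j ∉ S → β j = 0 := fun j hj => by rw [hβ, if_neg hj]
  -- the Wronskian vanishes
  have hW : ∀ z, (∏ j, f z j ^ β j) * deriv (fun z => ∏ j, f z j ^ α j) z -
      (∏ j, f z j ^ α j) * deriv (fun z => ∏ j, f z j ^ β j) z = 0 := by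
    refine zero_of_off ?_ hB ?_
    · exact ((hd β).mul ((hd α).contDiff (n := 2)).differentiable_deriv_two).sub
        ((hd α).mul ((hd β).contDiff (n := 2)).differentiable_deriv_two)
    · intro z hz
      obtain ⟨h1, -⟩ := hgen z hz
      have ha := hne z h1 α hα0
      have hb := hne z h1 β hβ0
      have h2 := log_mono (fun j z => f z j) z hf α ha
      have h3 := log_mono (fun j z => f z j) z hf β hb
      rw [logDeriv_apply] at h2 h3
      have h4 : ∑ j, (α j : ℂ) * (deriv (fun z => f z j) z / f z j) -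
          ∑ j, (β j : ℂ) * (deriv (fun z => f z j) z / f z j) = 0 := by
        rw [← Finset.sum_sub_distrib]
        have h5 : ∀ j, (α j : ℂ) * (deriv (fun z => f z j) z / f z j) -
            (β j : ℂ) * (deriv (fun z => f z j) z / f z j) =
            (q j : ℂ) * (deriv (fun z => f z j) z / f z j) := by
          intro j
          by_cases hj : j ∈ S
          · rw [← sub_mul]
            congr 1
            have := hαβ j hj
            rw [← this]
            push_cast
            ring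
          · rw [hS' j hj z, div_zero, mul_zero, mul_zero, mul_zero, sub_zero]
        rw [Finset.sum_congr rfl fun j _ => h5 j]
        have h6 := hq z
        rw [Bq_eq q h1 (fun j hj => hS' j hj z)] at h6
        exact (mul_eq_zero.1 h6).resolve_left (Finset.prod_ne_zero_iff.2 fun l hl => h1 l hl)
      rw [← h2, ← h3, div_sub_div _ _ ha hb, div_eq_zero_iff] at h4
      rcases h4 with h4 | h4
      · linear_combination h4
      · exact absurd h4 (mul_ne_zero ha hb)
  obtain ⟨z1, hz1⟩ : ∃ z, z ∉ B := by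
    by_contra hcon
    push Not at hcon
    exact not_countable_complex (hB.mono fun z _ => hcon z)
  obtain ⟨c, hc⟩ := Lang.proportional (hd α) (hd β)
    ⟨z1, hne z1 (hgen z1 hz1).1 β hβ0⟩ hW
  -- the relation at the generic point
  have hdegαβ : ∑ j, α j = ∑ j, β j := by
    have h1 : ∑ j, (α j : ℤ) = ∑ j, (β j : ℤ) := by
      rw [← sub_eq_zero, ← Finset.sum_sub_distrib]
      rw [← hdeg]
      symm
      rw [← Finset.sum_subset (Finset.subset_univ S) (fun j _ hj => by
        rw [hα0 j hj, hβ0 j hj]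
        simp)]
      exact Finset.sum_congr rfl fun j hj => (hαβ j hj).symm
    exact_mod_cast h1
  have hmv : ∀ (L : Type) [Field L] [Algebra ℂ L] (x : Fin (n + 1) → L),
      val x (monomial α 1 - monomial β c : MvPolynomial (Fin (n + 1)) ℂ) =
        (∏ j, x j ^ α j) - algebraMap ℂ L c * ∏ j, x j ^ β j := by
    intro L _ _ x
    unfold Pool.Agent.W602.GT.val
    rw [map_sub, aeval_mono, aeval_mono, map_one, one_mul]
  have h1 := hfG (monomial α 1 - monomial β c) ⟨∑ j, α j, (isHomogeneous_monomial _ (by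
      rw [Finsupp.degree_eq_sum])).sub (isHomogeneous_monomial _ (by
      rw [Finsupp.degree_eq_sum, hdegαβ]))⟩ (fun z => by
    rw [hmv, hc z, Algebra.algebraMap_self, RingHom.id_apply, sub_self])
  rw [hmv, sub_eq_zero] at h1
  refine ⟨c, ?_⟩
  have hyS : ∀ γ : Fin (n + 1) →₀ ℕ, (∀ j, j ∉ S → γ j = 0) →
      ∏ j, y j ^ γ j = y i0 ^ (∑ j, γ j) * ∏ j, rr y i0 j ^ γ j := by
    intro γ hγ
    rw [← Finset.prod_pow_eq_pow_sum, ← Finset.prod_mul_distrib]
    refine Finset.prod_congr rfl fun j _ => ?_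
    by_cases hj : j ∈ S
    · rw [rr_on ((hSy j).1 hj), ← mul_pow]
      congr 1
      field_simp
    · rw [hγ j hj, pow_zero, pow_zero, pow_zero, one_mul]
  rw [hyS α hα0, hyS β hβ0, hdegαβ] at h1
  have h2 : ∏ j, rr y i0 j ^ α j = algebraMap ℂ K c * ∏ j, rr y i0 j ^ β j := by
    apply mul_left_cancel₀ (pow_ne_zero (∑ j, β j) hi0)
    linear_combination h1
  have h3 : chi (rr y i0) q = (∏ j, rr y i0 j ^ α j) / ∏ j, rr y i0 j ^ β j := by
    unfold chi
    rw [← Finset.prod_div_distrib]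
    refine Finset.prod_congr rfl fun j _ => ?_
    by_cases hj : j ∈ S
    · rw [← zpow_natCast, ← zpow_natCast, ← zpow_sub₀ (rr_ne hi0 j), hαβ j hj]
    · have h0 : y j = 0 := by
        by_contra h0
        exact hj ((hSy j).2 h0)
      rw [rr_off h0, one_zpow, one_pow, one_pow, div_one]
  rw [h3, h2, mul_div_assoc, div_self, mul_one]
  exact Finset.prod_ne_zero_iff.2 fun j _ => pow_ne_zero _ (rr_ne hi0 j)

/-- **The weights of a variety with a dense entire curve.** -/
theorem wc_of_curve {ι : Type} {F : ι → MvPolynomial (Fin (n + 1)) ℂ} (hFf : ∀ i, IsForm (F i))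
    (hF : ∀ i, TowerM (F i)) {K : Type} [Field K] [Algebra ℂ K] {y : Fin (n + 1) → K}
    {i0 : Fin (n + 1)} (hi0 : y i0 ≠ 0) (hmem : ∀ i, val y (F i) = 0)
    {f : ℂ → Fin (n + 1) → ℂ} (hfd : ∀ j, Differentiable ℂ fun z => f z j)
    (hfV : ∀ z, ∀ G : MvPolynomial (Fin (n + 1)) ℂ, IsForm G → val y G = 0 → val (f z) G = 0)
    (hfG : ∀ G : MvPolynomial (Fin (n + 1)) ℂ, IsForm G → (∀ z, val (f z) G = 0) → val y G = 0)
    {b : Fin (n + 1) → ℤ} (hoff : ∀ j, y j = 0 → b j = 0)
    (hb : ∀ γ : Fin (n + 1) → ℤ, (∃ c : ℂ, chi (rr y i0) γ = algebraMap ℂ K c) →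
      ∑ j, γ j * b j = 0) (e : ι) (v : ℤ) : val y (wc b v (F e)) = 0 := by
  classical
  let S : Finset (Fin (n + 1)) := Finset.univ.filter fun j => y j ≠ 0
  have hSy : ∀ j, j ∈ S ↔ y j ≠ 0 := fun j => by simp [S]
  have hX : ∀ (L : Type) [Field L] [Algebra ℂ L] (x : Fin (n + 1) → L) j,
      val x (X j : MvPolynomial (Fin (n + 1)) ℂ) = x j := by
    intro L _ _ x j
    unfold Pool.Agent.W602.GT.val
    rw [aeval_X]
  have hXf : ∀ j, IsForm (X j : MvPolynomial (Fin (n + 1)) ℂ) := fun j => ⟨1, isHomogeneous_X _ j⟩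
  have hS : ∀ j ∈ S, ∃ z, f z j ≠ 0 := by
    intro j hj
    by_contra hcon
    push Not at hcon
    apply (hSy j).1 hj
    have h1 := hfG (X j) (hXf j) (fun z => by rw [hX, hcon z])
    rwa [hX] at h1
  have hS' : ∀ j, j ∉ S → ∀ z, f z j = 0 := by
    intro j hj z
    have h0 : y j = 0 := by
      by_contra h0
      exact hj ((hSy j).2 h0)
    have h1 := hfV z (X j) (hXf j) (by rw [hX, h0])
    rwa [hX] at h1
  obtain ⟨B, hB, hgen⟩ := generic_pt hfd hS hS'
  -- it is enough to consider generic points of the curve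
  refine hfG _ (wc_form (hFf e) b v) ?_
  have hdiff : Differentiable ℂ (fun z => val (f z) (wc b v (F e))) := by
    have h1 := eval_diff (φ := fun j z => f z j) hfd (wc b v (F e))
    have h2 : (fun z => val (f z) (wc b v (F e))) =
        fun z => eval (fun j => f z j) (wc b v (F e)) := by
      funext z
      exact val_eval _ _
    rw [h2]
    exact h1
  refine zero_of_off hdiff hB fun z0 hz0 => ?_
  obtain ⟨hz1, hz2⟩ := hgen z0 hz0
  set A : (Fin (n + 1) → ℤ) → ℂ := fun q =>
    ∑ j, (q j : ℂ) * (deriv (fun z => f z j) z0 / f z0 j) with hA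
  -- a generic exponential factor
  obtain ⟨lam, hlam⟩ : ∃ lam : ℂ, ∀ q : Fin (n + 1) → ℤ, ∑ j ∈ S, q j ≠ 0 →
      A q + lam * (∑ j ∈ S, q j : ℤ) ≠ 0 := by
    by_contra hcon
    push Not at hcon
    apply not_countable_complex
    refine (Set.countable_range fun q : Fin (n + 1) → ℤ => -A q / (∑ j ∈ S, q j : ℤ)).mono
      fun lam _ => ?_
    obtain ⟨q, hq0, hq⟩ := hcon lam
    refine ⟨q, ?_⟩
    have h1 : ((∑ j ∈ S, q j : ℤ) : ℂ) ≠ 0 := by exact_mod_cast hq0
    change -A q / (∑ j ∈ S, q j : ℤ) = lam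
    field_simp
    linear_combination -hq
  let g : Fin (n + 1) → ℂ → ℂ := fun j z => Complex.exp (lam * z) * f z j
  have hgd : ∀ j, Differentiable ℂ (g j) := fun j => by
    have h1 : Differentiable ℂ fun z : ℂ => Complex.exp (lam * z) :=
      Complex.differentiable_exp.comp (differentiable_id.const_mul lam)
    exact h1.mul (hfd j)
  have hgz : ∀ z, (fun j => g j z) = fun j => Complex.exp (lam * z) * f z j := fun z => rfl
  have hgl : ∀ j ∈ S, deriv (g j) z0 / g j z0 =
      lam + deriv (fun z => f z j) z0 / f z0 j := by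
    intro j hj
    have h1 : HasDerivAt (fun z : ℂ => Complex.exp (lam * z)) (Complex.exp (lam * z0) * lam) z0 := by
      have h2 := ((hasDerivAt_id z0).const_mul lam).cexp
      simpa using h2
    have h3 := (h1.mul ((hfd j) z0).hasDerivAt).deriv
    have h4 : deriv (g j) z0 = Complex.exp (lam * z0) * lam * f z0 j +
        Complex.exp (lam * z0) * deriv (fun z => f z j) z0 := h3
    have h5 := hz1 j hj
    have h6 := Complex.exp_ne_zero (lam * z0)
    rw [h4]
    change _ / (Complex.exp (lam * z0) * f z0 j) = _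
    field_simp
  have hgl' : ∀ j, j ∉ S → deriv (g j) z0 / g j z0 = 0 := by
    intro j hj
    change _ / (Complex.exp (lam * z0) * f z0 j) = 0
    rw [hS' j hj z0, mul_zero, div_zero]
  have hbg : ∀ q : Fin (n + 1) → ℤ, ∑ j, (q j : ℂ) * (deriv (g j) z0 / g j z0) = 0 →
      ∑ j, q j * b j = 0 := by
    intro q hq
    have h1 : ∑ j, (q j : ℂ) * (deriv (g j) z0 / g j z0) =
        A q + lam * (∑ j ∈ S, q j : ℤ) := by
      have h2 : ∑ j, (q j : ℂ) * (deriv (g j) z0 / g j z0) =
          ∑ j ∈ S, (q j : ℂ) * (lam + deriv (fun z => f z j) z0 / f z0 j) := by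
        rw [← Finset.sum_subset (Finset.subset_univ S) (fun j _ hj => by
          rw [hgl' j hj, mul_zero])]
        exact Finset.sum_congr rfl fun j hj => by rw [hgl j hj]
      have h3 : A q = ∑ j ∈ S, (q j : ℂ) * (deriv (fun z => f z j) z0 / f z0 j) := by
        rw [hA]
        refine (Finset.sum_subset (Finset.subset_univ S) fun j _ hj => ?_).symm
        rw [hS' j hj z0, div_zero, mul_zero]
      rw [h2, h3, Int.cast_sum, Finset.mul_sum, ← Finset.sum_add_distrib]
      exact Finset.sum_congr rfl fun j _ => by ring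
    rw [h1] at hq
    have hdeg : ∑ j ∈ S, q j = 0 := by
      by_contra hne
      exact hlam q hne hq
    rw [hdeg, Int.cast_zero, mul_zero, add_zero] at hq
    exact hb q (const_chi hi0 hfd hSy hS hS' hfG (hz2 q hq) hdeg)
  have hspec : ∀ t : ℂ, t ≠ 0 → eval (fun j => g j z0 * t ^ b j) (F e) = 0 := by
    intro t ht
    refine towerM_spec g z0 b t (hF e) hgd hbg ht fun z => ?_
    obtain ⟨d, hd⟩ := hFf e
    have h1 := hfV z (F e) ⟨d, hd⟩ (hmem e)
    have h2 := val_smul hd (Complex.exp (lam * z)) (f z)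
    rw [h1, mul_zero, val_eval] at h2
    exact h2
  have h1 : val (fun j => g j z0) (wc b v (F e)) = 0 := by
    obtain ⟨M, R, hR1, -, hR3⟩ := orbit_poly (k := ℂ) (fun j => g j z0) b (F e)
    refine hR3 (poly_zero fun t ht => ?_) v
    rw [hR1 t ht, val_eval]
    have h2 := hspec t ht
    simp only [mul_comm (g _ z0)] at h2
    rw [h2, mul_zero]
  obtain ⟨d, hd⟩ := wc_form (hFf e) b v
  have h2 := val_smul hd (Complex.exp (lam * z0)) (f z0)
  have h3 : val (fun j => Complex.exp (lam * z0) * f z0 j) (wc b v (F e)) = 0 := h1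
  rw [h3] at h2
  exact (mul_eq_zero.1 h2.symm).resolve_left (pow_ne_zero _ (Complex.exp_ne_zero _))

end Pool.Agent.X333.MS
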