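import Pool.Agent.X333.MS.Conn
import Pool.Agent.TH710.ND.Sp
import Pool.Agent.TH710.WH.Ten

/-!
Special, rationally connected and tensor-free varieties given by nested sums of high powers of
monomials: the results with the explicit bound.
-/

set_option autoImplicit false

open AlgebraicGeometry CategoryTheory
open FF MvPolynomial Pool.Agent.W603.LV Pool.Agent.W602.GT Pool.Agent.TH710.ND Pool.Agent.TH710.NW
  Pool.Agent.TH710.SP Pool.Agent.TH710.WH

namespace Pool.Agent.X333.MS

variable {n : ℕ} {ι : Type}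

theorem bnd_sub_le {n s h N : ℕ} (hN : (n + 1) * ((h + 1) * (2 * s + 1) ^ 5) ≤ N) :
    (bnd n s h - 1) * n ≤ n * ((n + 1) * ((h + 1) * (2 * s + 1) ^ 5)) := by
  have h1 := (bnd_le (n := n) (s := s) (h := h) le_rfl).1
  rw [mul_comm]
  exact Nat.mul_le_mul_left _ (le_trans (Nat.sub_le _ _) h1)

theorem seven {k : Type} [Field k] [IsAlgClosed k] [CharZero k] (hn : 1 ≤ n)
    {F : ι → MvPolynomial (Fin (n + 1)) k} {s N h : ℕ}
    (hF : ∀ e, IsForm (F e) ∧ NestedIn IsMono s N h (F e))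
    (hN : (n + 1) * ((h + 1) * (2 * s + 1) ^ 5) ≤ N) {K : Type} [Field K] [Algebra k K] {w : ℕ}
    {y : Fin (n + 1) → K} (hy : SubVarU ∅ F K w y) (hcomp : IsComponentU ∅ F y) :
    [TorusOrbit k w y, PurelyTranscendental k K, Unirational k y, RationallyConnected k y,
      Special k K w (fun _ => False),
      NoTensors k K w (n * ((n + 1) * ((h + 1) * (2 * s + 1) ^ 5))),
      ∀ B, NoTensors k K w B].TFAE := by
  have hM := proj_tfae hn hF (bnd_le hN).1 hy hcomp
  have h1 : (bnd n s h - 1) * n ≤ n * ((n + 1) * ((h + 1) * (2 * s + 1) ^ 5)) := bnd_sub_le hN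
  tfae_have 1 ↔ 2 := hM.out 0 1
  tfae_have 1 ↔ 3 := hM.out 0 2
  tfae_have 1 ↔ 4 := hM.out 0 3
  tfae_have 1 ↔ 5 := hM.out 0 4
  tfae_have 1 ↔ 7 := hM.out 0 6
  tfae_have 7 → 6 := fun h => h _
  tfae_have 6 → 1 := orbit_of_noTensors hF (bnd_le hN).1 hy hcomp h1
  tfae_finish

variable {k k' K L : Type} [Field k] [Field k'] [Field K] [Field L] [Algebra k k'] [Algebra k K]
  [Algebra k L] [Algebra k' L] [Algebra K L] [IsScalarTower k k' L] [IsScalarTower k K L]

/-- **Varieties over arbitrary fields of characteristic zero.** -/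
theorem seven_desc [IsAlgClosed k'] [CharZero k'] (hn : 1 ≤ n)
    {F : ι → MvPolynomial (Fin (n + 1)) k'} {s N h : ℕ}
    (hF : ∀ e, IsForm (F e) ∧ NestedIn IsMono s N h (F e))
    (hN : (n + 1) * ((h + 1) * (2 * s + 1) ^ 5) ≤ N) (hd : LinDisjoint k k' K L)
    {y : Fin (n + 1) → K} (hgen : coords k y = ⊤) {w : ℕ}
    (hy : SubVarU ∅ F L w (fun i => algebraMap K L (y i)))
    (hcomp : IsComponentU ∅ F (fun i => algebraMap K L (y i)))
    (h : RationallyConnected k' (fun i => algebraMap K L (y i)) ∨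
      Special k' L w (fun _ => False) ∨
      NoTensors k' L w (n * ((n + 1) * ((h + 1) * (2 * s + 1) ^ 5)))) :
    PurelyTranscendental k K := by
  have hM := seven hn hF hN hy hcomp
  refine rational_of_orbit_desc hd hgen (w := w) ?_
  rcases h with h | h | h
  · exact (hM.out 3 0).1 h
  · exact (hM.out 4 0).1 h
  · exact (hM.out 5 0).1 h

end Pool.Agent.X333.MS
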