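import Pool.Agent.W602.GT.STorF

/-!
Components of varieties with many weights are toric: the criterion in terms of the equations.
-/

set_option autoImplicit false

open FF IntermediateField Pool.Agent.W603.LV Pool.Agent.W602.GT

namespace Pool.Agent.X333.MS

variable {k : Type} [Field k] {n : ℕ} {ι : Type}

/-- **Toric components.** -/
theorem tor_frame_of [IsAlgClosed k] [CharZero k] {U : Set (Fin (n + 1))}
    {F : ι → MvPolynomial (Fin (n + 1)) k} {K : Type} [Field K]
    [Algebra k K] {w : ℕ} {y : Fin (n + 1) → K} (hy : SubVarU U F K w y)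
    (hcomp : IsComponentU U F y)
    (hwc : ∀ (i0 : Fin (n + 1)) (b : Fin (n + 1) → ℤ), y i0 ≠ 0 → b i0 = 0 →
      (∀ j, y j = 0 → b j = 0) →
      (∀ γ : Fin (n + 1) → ℤ, (∃ c : k, chi (rr y i0) γ = algebraMap k K c) → ∑ j, γ j * b j = 0) →
      ∀ e v, val y (wc b v (F e)) = 0) :
    ∃ (i0 : Fin (n + 1)) (σ : Fin w → K) (b : Fin (n + 1) → Fin w → ℤ)
      (a : Fin w → Fin (n + 1) → ℤ) (c : Fin (n + 1) → k), TorFrame k w y i0 σ b a c ∧
      ∀ l, ∀ G : MvPolynomial (Fin (n + 1)) k, IsForm G → val y G = 0 →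
        ∀ v, val y (wc (fun j => b j l) v G) = 0 := by
  classical
  obtain ⟨i0, hi0⟩ := Function.ne_iff.1 hy.ne
  have hi0' : y i0 ≠ 0 := hi0
  have hK : CharZero K := charZero_of_injective_algebraMap (algebraMap k K).injective
  set r : Fin (n + 1) → K := rr y i0 with hrdef
  have hr : ∀ l, r l ≠ 0 := rr_ne hi0'
  have hri0 : r i0 = 1 := by
    rw [hrdef, rr_on hi0']
    exact div_self hi0'
  obtain ⟨q, β, b, hrb, hdual, hconstb⟩ := lattice (k := k) hr
  have hb0 : ∀ j, r j = 1 → ∀ l, b j l = 0 := by
    intro j hj l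
    have h1 := hconstb (Pi.single j 1) ⟨1, by rw [chi_single, hj, map_one]⟩ l
    rw [Finset.sum_eq_single j] at h1
    · simpa using h1
    · intro i _ hi
      simp [hi]
    · intro h
      exact absurd (Finset.mem_univ _) h
  have hoff : ∀ j, y j = 0 → ∀ l, b j l = 0 := fun j hj =>
    hb0 j (rr_off hj)
  have hH : ∀ l, ∀ G : MvPolynomial (Fin (n + 1)) k, IsForm G → val y G = 0 →
      ∀ v, val y (wc (fun j => b j l) v G) = 0 := fun l =>
    ideal_hom hy hcomp (hwc i0 (fun j => b j l) hi0' (hb0 i0 hri0 l) (fun j hj => hoff j hj l)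
      (fun γ hγ => hconstb γ hγ l))
  -- the vector fields
  have hder : ∀ l : Fin q, ∃ δ : Derivation k K K, ∀ j, δ (r j) = b j l * r j := by
    intro l
    obtain ⟨j, hj⟩ : ∃ j, b j l ≠ 0 := by
      by_contra hcon
      push Not at hcon
      have h1 := hdual l l
      rw [if_pos rfl, Finset.sum_eq_zero fun j _ => by rw [hcon j, mul_zero]] at h1
      exact zero_ne_one h1
    have hyj : y j ≠ 0 := fun h0 => hj (hoff j h0 l)
    obtain ⟨δ, σ, g, b', hσ0, hσ, htop, hg, hb', hz⟩ := exists_delta hy.gen (fun j => b j l)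
      hi0' hyj (by
        rw [hb0 i0 hri0 l]
        exact hj.symm) (hH l)
    have hg1 : g = 1 := by
      have h1 : g ∣ 1 := by
        have h2 := hdual l l
        rw [if_pos rfl] at h2
        rw [← h2]
        refine Finset.dvd_sum fun j _ => ?_
        by_cases h0 : y j = 0
        · rw [hoff j h0 l, mul_zero]
          exact dvd_zero _
        · have h3 := hb' j h0
          simp only [hb0 i0 hri0 l, sub_zero] at h3
          rw [h3]
          exact Dvd.intro_left (β l j * b' j) (by ring)
      exact Int.eq_one_of_dvd_one hg.le h1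
    refine ⟨δ, fun j => ?_⟩
    by_cases h0 : y j = 0
    · have h1 : r j = 1 := rr_off h0
      rw [h1, hb0 j h1 l]
      simp
    · obtain ⟨z, hz0, hδz, h1⟩ := hz j h0
      have h2 := hb' j h0
      simp only [hb0 i0 hri0 l, sub_zero, hg1, one_mul] at h2
      have h3 : r j = z * σ ^ (b' j) := by
        rw [hrdef, rr_on h0]
        exact h1
      rw [h3, δ.leibniz, hδz, smul_zero, add_zero, der_zpow δ hσ0, hσ, div_self hσ0, mul_one,
        smul_eq_mul, h2]
      ring
  choose δ hδ using hder
  let σ : Fin q → K := fun l => chi r (β l)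
  have hσ0 : ∀ l, σ l ≠ 0 := fun l => chi_ne hr _
  have hchi : ∀ (D : Derivation k K K) (u : Fin (n + 1) → K), (∀ j, D (r j) = u j * r j) →
      ∀ γ : Fin (n + 1) → ℤ, D (chi r γ) = (∑ j, (γ j : K) * u j) * chi r γ := by
    intro D u hu γ
    unfold chi
    have hs : ∀ s : Finset (Fin (n + 1)), D (∏ j ∈ s, r j ^ γ j) =
        (∑ j ∈ s, (γ j : K) * u j) * ∏ j ∈ s, r j ^ γ j := by
      intro s
      induction s using Finset.induction_on with
      | empty => simp
      | insert j s hj ih =>
        rw [Finset.prod_insert hj, Finset.sum_insert hj, D.leibniz, ih, der_zpow D (hr j), hu]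
        have := hr j
        simp only [smul_eq_mul]
        field_simp
        ring
    exact hs Finset.univ
  obtain ⟨lam, hlam⟩ := exists_lam k q
  let D0 : Derivation k K K := ∑ l, algebraMap k K (lam l) • δ l
  have hD0 : ∀ z, D0 z = ∑ l, algebraMap k K (lam l) * δ l z := by
    intro z
    have h0 : ∀ (t : Finset (Fin q)), (∑ l ∈ t, algebraMap k K (lam l) • δ l) z =
        ∑ l ∈ t, algebraMap k K (lam l) * δ l z := by
      intro t
      induction t using Finset.induction_on with
      | empty => simp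
      | insert l t hl ih =>
        rw [Finset.sum_insert hl, Finset.sum_insert hl, Derivation.add_apply, ih]
        rfl
    exact h0 _
  have hD0σ : ∀ m, D0 (σ m) = algebraMap k K (lam m) * σ m := by
    intro m
    rw [hD0, Finset.sum_eq_single m]
    · have h1 := hchi (δ m) (fun j => (b j m : K)) (hδ m) (β m)
      have h2 : ∑ j, (β m j : K) * (b j m : K) = 1 := by
        have h3 := hdual m m
        rw [if_pos rfl] at h3
        exact_mod_cast h3
      rw [h2, one_mul] at h1
      rw [h1]
    · intro l _ hl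
      have h1 := hchi (δ l) (fun j => (b j l : K)) (hδ l) (β m)
      have h2 : ∑ j, (β m j : K) * (b j l : K) = 0 := by
        have h3 := hdual m l
        rw [if_neg (Ne.symm hl)] at h3
        exact_mod_cast h3
      rw [h2, zero_mul] at h1
      rw [h1, mul_zero]
    · intro h
      exact absurd (Finset.mem_univ _) h
  have hind : AlgebraicIndependent k σ := algInd_of_eig σ hσ0 lam hlam D0 hD0σ
  have hrtop : ∀ j, r j ∈ IntermediateField.adjoin k (Set.range σ) := by
    intro j
    obtain ⟨c, hc⟩ := hrb j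
    rw [hc]
    refine mul_mem (IntermediateField.algebraMap_mem _ _) (prod_mem fun l _ => zpow_mem ?_ _)
    exact IntermediateField.subset_adjoin k _ ⟨l, rfl⟩
  have htop : IntermediateField.adjoin k (Set.range σ) = ⊤ := by
    rw [eq_top_iff, ← hy.gen]
    unfold coords
    rw [IntermediateField.adjoin_le_iff]
    rintro _ ⟨i, j, hj, rfl⟩
    by_cases hi : y i = 0
    · rw [hi, zero_div]
      exact zero_mem _
    · have h1 := div_mem (hrtop i) (hrtop j)
      rw [hrdef, rr_on hi, rr_on hj] at h1
      have h2 : y i / y i0 / (y j / y i0) = y i / y j := by field_simp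
      rwa [h2] at h1
  have hbasis : IsTranscendenceBasis k σ := by
    rw [hind.isTranscendenceBasis_iff_isAlgebraic]
    apply alg_adjoin
    rw [htop]
    exact ⟨fun x => isAlgebraic_algebraMap (A := K) (⟨x, trivial⟩ : (⊤ : IntermediateField k K))⟩
  obtain rfl : q = w := by
    have h1 := hbasis.cardinalMk_eq_trdeg
    rw [Cardinal.mk_fin, hy.dim] at h1
    exact_mod_cast h1
  choose c hc using hrb
  refine ⟨i0, σ, b, β, c, ⟨hi0', hbasis, htop, fun j hj => ⟨?_, ?_⟩, hdual, hb0 i0 hri0, hoff⟩, hH⟩
  · intro h0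
    have h1 := hc j
    rw [h0, map_zero, zero_mul] at h1
    exact hr j h1
  · have h1 := hc j
    rw [hrdef, rr_on hj] at h1
    exact h1

end Pool.Agent.X333.MS
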