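import Pool.Agent.X333.MS.Main
import Pool.Agent.TH710.SP.Tens
import Pool.Agent.TH710.WH.Conn3
import Pool.Agent.Y216.SV.Not

/-!
Rationality of orbit closures, and varieties without tensor differentials given by nested sums of high
powers of monomials.
-/

set_option autoImplicit false

open FF MvPolynomial Pool.Agent.W603.LV Pool.Agent.W602.GT Pool.Agent.TH710.ND
open Pool.Agent.TH710.SP (NoTensors const_of_noTensors)
open Pool.Agent.TH710.WH (PurelyTranscendental Unirational RationallyConnected LinDisjoint)

namespace Pool.Agent.X333.MS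

section

variable {n : ℕ} {k K : Type} [Field k] [Field K] [Algebra k K]

theorem rational_of_orbit {w : ℕ} {y : Fin (n + 1) → K} (h : TorusOrbit k w y) :
    PurelyTranscendental k K := by
  obtain ⟨i0, σ, b, a, c, hT⟩ := h
  exact ⟨Fin w, inferInstance, σ, hT.basis.1, hT.top⟩

/-- **Parametrisation.** -/
theorem unirational_of_orbit {w : ℕ} {y : Fin (n + 1) → K} (h : TorusOrbit k w y) :
    Unirational k y := by
  classical
  obtain ⟨i0, σ, b, a, c, hT⟩ := h
  have hσ0 : ∀ l, σ l ≠ 0 := fun l => hT.basis.1.ne_zero l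
  let M : ℕ := ∑ j, ∑ l, (b j l).natAbs
  have hM : ∀ j l, 0 ≤ b j l + M := by
    intro j l
    have h1 : (b j l).natAbs ≤ M := by
      refine le_trans (Finset.single_le_sum (f := fun l => (b j l).natAbs)
        (fun _ _ => Nat.zero_le _) (Finset.mem_univ l)) ?_
      exact Finset.single_le_sum (f := fun j => ∑ l, (b j l).natAbs)
        (fun _ _ => Nat.zero_le _) (Finset.mem_univ j)
    omega
  let P : Fin (n + 1) → MvPolynomial (Fin w) k := fun j =>
    if y j = 0 then 0 else C (c j) * ∏ l, X l ^ (b j l + M).toNat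
  set g : K := (∏ l, σ l ^ M) / y i0 with hg
  have hg0 : g ≠ 0 := div_ne_zero (Finset.prod_ne_zero_iff.2 fun l _ => pow_ne_zero _ (hσ0 l))
    hT.base
  have hP : ∀ j, aeval σ (P j) = g * y j := by
    intro j
    by_cases hj : y j = 0
    · simp only [P, if_pos hj, map_zero, hj, mul_zero]
    · obtain ⟨-, h1⟩ := hT.coord j hj
      simp only [P, if_neg hj, map_mul, aeval_C, map_prod, map_pow, aeval_X]
      have h2 : ∏ l, σ l ^ (b j l + M).toNat = (∏ l, σ l ^ b j l) * ∏ l, σ l ^ M := by
        rw [← Finset.prod_mul_distrib]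
        refine Finset.prod_congr rfl fun l _ => ?_
        rw [← zpow_natCast, ← zpow_natCast, Int.toNat_of_nonneg (hM j l), zpow_add₀ (hσ0 l)]
      have h3 : y j = (algebraMap k K (c j) * ∏ l, σ l ^ b j l) * y i0 := by
        rw [← h1, div_mul_cancel₀ _ hT.base]
      rw [h2, h3, hg]
      have := hT.base
      field_simp
  refine ⟨w, P, fun G hG => ?_⟩
  obtain ⟨d, hd⟩ := hG
  have h1 : aeval σ (aeval P G) = g ^ d * val y G := by
    have h2 := MvPolynomial.comp_aeval_apply (f := P) (aeval σ : MvPolynomial (Fin w) k →ₐ[k] K) G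
    rw [h2, ← val_smul hd]
    unfold Pool.Agent.W602.GT.val
    congr 2
    funext j
    exact hP j
  constructor
  · intro h0
    rw [h0, mul_zero] at h1
    exact hT.basis.1 (by rw [h1, map_zero])
  · intro h0
    rw [h0, map_zero] at h1
    exact (mul_eq_zero.1 h1.symm).resolve_left (pow_ne_zero _ hg0)

end

section tens

variable {n : ℕ} {ι : Type} {k : Type} [Field k] [IsAlgClosed k] [CharZero k]

/-- **Varieties without tensor differentials of bounded degree.** -/
theorem orbit_of_noTensors {U : Set (Fin (n + 1))} {F : ι → MvPolynomial (Fin (n + 1)) k}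
    {s N h : ℕ} (hF : ∀ e, IsForm (F e) ∧ NestedIn IsMono s N h (F e)) (hN : bnd n s h ≤ N)
    {K : Type} [Field K] [Algebra k K] {w : ℕ} {y : Fin (n + 1) → K} (hy : SubVarU U F K w y)
    (hcomp : IsComponentU U F y) {B : ℕ} (hB : (bnd n s h - 1) * n ≤ B)
    (hs : NoTensors k K w B) : TorusOrbit k w y := by
  have halg : Algebra.IsAlgebraic (coords k y) K := by
    rw [hy.gen]
    infer_instance
  have hwn := dim_le hy.ne halg hy.dim
  have hb : w * ((h + 1) * (2 * s * (2 * s)) * ((2 * s + 1) * tn (2 * s - 1))) ≤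
      bnd n s h - 1 := by
    refine le_trans (Nat.mul_le_mul_right _ hwn) ?_
    unfold bnd
    omega
  obtain ⟨i0, σ, b, a, c, hT, -⟩ := tor_frame_of hy hcomp (fun i0 b hi0 _ hoff hb' e v => by
    refine wc_of_const (Bd := fun _ => False) (fun i => (hF i).1) (fun i => (hF i).2)
      (le_trans (by unfold bnd; omega) hN) hi0 hy.mem ?_ hoff hb' e v
    intro c' A hA i a b
    obtain ⟨c, hc⟩ := const_of_noTensors hy.dim (fun A => ∃ c',
        Gen (fun _ => False) N (2 * s) ((h + 1) * (2 * s * (2 * s))) (fun _ => 0) IsMono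
          (nrm y i0) c' A) (Bd := fun _ => False) (fun P h => h) (N := N) (s := 2 * s)
      (c := (h + 1) * (2 * s * (2 * s))) (by
        rintro A ⟨c', hA⟩
        exact hA.ok.1.mono hA.ok.2) (hb.trans (by omega))
      ((Nat.mul_le_mul hb hwn).trans hB) hs A ⟨c', hA⟩ i a b
    rw [hc]
    exact IntermediateField.algebraMap_mem _ _)
  exact ⟨i0, σ, b, a, c, hT⟩

end tens

section desc

variable {n : ℕ} {k k' K L : Type} [Field k] [Field k'] [Field K] [Field L] [Algebra k k']
  [Algebra k K] [Algebra k L] [Algebra k' L] [Algebra K L] [IsScalarTower k k' L]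
  [IsScalarTower k K L]

/-- the elements of `K` which are constant over `k'` are constant over `k` -/
theorem const_desc (hd : LinDisjoint k k' K L) {z : K} {c' : k'}
    (h : algebraMap K L z = algebraMap k' L c') : ∃ c : k, z = algebraMap k K c := by
  by_contra hcon
  push Not at hcon
  have h1 : LinearIndependent k ![(1 : K), z] := by
    rw [LinearIndependent.pair_iff]
    intro s t hst
    have ht : t = 0 := by
      by_contra ht
      apply hcon (-s / t)
      have ht' : algebraMap k K t ≠ 0 := by rw [Ne, map_eq_zero]; exact ht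
      rw [Algebra.smul_def, Algebra.smul_def, mul_one] at hst
      rw [map_div₀, map_neg]
      field_simp
      linear_combination hst
    rw [ht, zero_smul, add_zero, Algebra.smul_def, mul_one, map_eq_zero] at hst
    exact ⟨hst, ht⟩
  have h2 := hd 2 _ h1
  have h3 : (fun i : Fin 2 => algebraMap K L (![(1 : K), z] i)) = ![(1 : L), algebraMap k' L c'] := by
    funext i
    fin_cases i
    · simp
    · simpa using h
  rw [h3, LinearIndependent.pair_iff] at h2
  have h4 := h2 (-c') 1 (by
    rw [Algebra.smul_def, Algebra.smul_def, map_neg, map_one]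
    ring)
  exact one_ne_zero h4.2

/-- **Descent.** -/
theorem rational_of_orbit_desc (hd : LinDisjoint k k' K L) {y : Fin (n + 1) → K}
    (hgen : coords k y = ⊤) {w : ℕ} (h : TorusOrbit k' w (fun i => algebraMap K L (y i))) :
    PurelyTranscendental k K := by
  classical
  obtain ⟨i0, σ, b, a, c, hT⟩ := h
  have hinj := (algebraMap K L).injective
  have hy0 : ∀ j, algebraMap K L (y j) = 0 ↔ y j = 0 := fun j => map_eq_zero _
  have hi0 : y i0 ≠ 0 := fun h0 => hT.base (by rw [h0, map_zero])
  have hσ0 : ∀ l, σ l ≠ 0 := fun l => hT.basis.1.ne_zero l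
  -- the coordinates
  let c' : Fin (n + 1) → k' := fun j => if y j = 0 then 1 else c j
  have hc'0 : ∀ j, c' j ≠ 0 := by
    intro j
    by_cases hj : y j = 0
    · simp only [c', if_pos hj]
      exact one_ne_zero
    · simp only [c', if_neg hj]
      exact (hT.coord j (fun h0 => hj ((hy0 j).1 h0))).1
  have hr : ∀ j, algebraMap K L (rr y i0 j) = algebraMap k' L (c' j) * ∏ l, σ l ^ b j l := by
    intro j
    by_cases hj : y j = 0
    · rw [rr_off hj, map_one]
      simp only [c', if_pos hj, map_one, one_mul]
      have h1 := hT.off j ((hy0 j).2 hj)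
      simp [h1]
    · rw [rr_on hj, map_div₀]
      simp only [c', if_neg hj]
      exact (hT.coord j (fun h0 => hj ((hy0 j).1 h0))).2
  let τ : Fin w → K := fun l => chi (rr y i0) (a l)
  let κ : Fin w → k' := fun l => ∏ j, c' j ^ a l j
  have hκ0 : ∀ l, κ l ≠ 0 := fun l => Finset.prod_ne_zero_iff.2 fun j _ => zpow_ne_zero _ (hc'0 j)
  have hτ : ∀ l, algebraMap K L (τ l) = algebraMap k' L (κ l) * σ l := by
    intro l
    have h1 : algebraMap K L (τ l) = ∏ j, (algebraMap k' L (c' j) * ∏ m, σ m ^ b j m) ^ a l j := by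
      simp only [τ, chi, map_prod, map_zpow₀, hr]
    rw [h1]
    simp only [mul_zpow]
    rw [Finset.prod_mul_distrib]
    congr 1
    · simp only [κ, map_prod, map_zpow₀]
    · have h2 : ∀ j, (∏ m, σ m ^ b j m) ^ a l j = ∏ m, σ m ^ (a l j * b j m) := by
        intro j
        rw [← Finset.prod_zpow]
        refine Finset.prod_congr rfl fun m _ => ?_
        rw [← zpow_mul, mul_comm]
      simp only [h2]
      rw [Finset.prod_comm]
      have h3 : ∀ m, ∏ j, σ m ^ (a l j * b j m) = σ m ^ (∑ j, a l j * b j m) := by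
        intro m
        have h4 : ∀ S : Finset (Fin (n + 1)), ∏ j ∈ S, σ m ^ (a l j * b j m) =
            σ m ^ (∑ j ∈ S, a l j * b j m) := by
          intro S
          induction S using Finset.induction_on with
          | empty => simp
          | insert x S hx ih => rw [Finset.prod_insert hx, Finset.sum_insert hx, ih,
              zpow_add₀ (hσ0 m)]
        exact h4 _
      simp only [h3, hT.dual]
      rw [Finset.prod_eq_single l]
      · simp
      · intro m _ hm
        rw [if_neg (Ne.symm hm), zpow_zero]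
      · intro hl
        exact absurd (Finset.mem_univ _) hl
  have hτ0 : ∀ l, τ l ≠ 0 := fun l => chi_ne (rr_ne hi0) _
  -- algebraic independence
  have hind' : AlgebraicIndependent k' (fun l => algebraMap K L (τ l)) := by
    have h1 : (fun l => algebraMap K L (τ l)) = fun l => algebraMap k' L (κ l) * σ l := funext hτ
    rw [h1, algebraicIndependent_iff_injective_aeval]
    have h2 := hT.basis.1
    rw [algebraicIndependent_iff_injective_aeval] at h2
    let φ : MvPolynomial (Fin w) k' →ₐ[k'] MvPolynomial (Fin w) k' := aeval fun l => C (κ l) * X l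
    let ψ : MvPolynomial (Fin w) k' →ₐ[k'] MvPolynomial (Fin w) k' :=
      aeval fun l => C (κ l)⁻¹ * X l
    have hψφ : ψ.comp φ = AlgHom.id k' _ := by
      apply MvPolynomial.algHom_ext
      intro l
      simp only [AlgHom.comp_apply, φ, ψ, aeval_X, map_mul, AlgHom.id_apply]
      rw [← algebraMap_eq, AlgHom.commutes, algebraMap_eq, ← mul_assoc, ← map_mul,
        mul_inv_cancel₀ (hκ0 l), map_one, one_mul]
    have h3 : (aeval (fun l => algebraMap k' L (κ l) * σ l) : MvPolynomial (Fin w) k' →ₐ[k'] L) =
        (aeval σ).comp φ := by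
      apply MvPolynomial.algHom_ext
      intro l
      simp [φ]
    rw [h3]
    refine h2.comp ?_
    exact Function.LeftInverse.injective (g := ψ) fun p => DFunLike.congr_fun hψφ p
  have hind : AlgebraicIndependent k τ := by
    have h2 : AlgebraicIndependent k (fun l => (IsScalarTower.toAlgHom k K L) (τ l)) :=
      hind'.restrictScalars (FaithfulSMul.algebraMap_injective k k')
    exact AlgebraicIndependent.of_comp (IsScalarTower.toAlgHom k K L) h2
  -- generation
  have hmem : ∀ j, rr y i0 j ∈ IntermediateField.adjoin k (Set.range τ) := by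
    intro j
    have hp0 : (∏ l, τ l ^ b j l) ≠ 0 :=
      Finset.prod_ne_zero_iff.2 fun l _ => zpow_ne_zero _ (hτ0 l)
    obtain ⟨z, hz⟩ := const_desc hd (z := rr y i0 j / ∏ l, τ l ^ b j l)
      (c' := c' j / ∏ l, κ l ^ b j l) (by
        have h0 : ∀ l, algebraMap k' L (κ l) ≠ 0 := fun l => by
          rw [Ne, map_eq_zero]; exact hκ0 l
        rw [map_div₀, map_prod, hr, map_div₀, map_prod]
        simp only [map_zpow₀, hτ, mul_zpow]
        rw [Finset.prod_mul_distrib]
        have h1 : (∏ l, σ l ^ b j l) ≠ 0 :=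
          Finset.prod_ne_zero_iff.2 fun l _ => zpow_ne_zero _ (hσ0 l)
        have h2 : (∏ l, algebraMap k' L (κ l) ^ b j l) ≠ 0 :=
          Finset.prod_ne_zero_iff.2 fun l _ => zpow_ne_zero _ (h0 l)
        field_simp)
    have h1 : rr y i0 j = algebraMap k K z * ∏ l, τ l ^ b j l := by
      rw [← hz, div_mul_cancel₀ _ hp0]
    rw [h1]
    refine mul_mem (IntermediateField.algebraMap_mem _ _) (prod_mem fun l _ => zpow_mem ?_ _)
    exact IntermediateField.subset_adjoin k _ ⟨l, rfl⟩
  refine ⟨Fin w, inferInstance, τ, hind, ?_⟩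
  rw [eq_top_iff, ← hgen]
  unfold coords
  rw [IntermediateField.adjoin_le_iff]
  rintro _ ⟨i, j, hj, rfl⟩
  by_cases hi : y i = 0
  · rw [hi, zero_div]
    exact zero_mem _
  · have h1 := div_mem (hmem i) (hmem j)
    rw [rr_on hi, rr_on hj] at h1
    have h2 : y i / y i0 / (y j / y i0) = y i / y j := by field_simp
    rwa [h2] at h1

end desc

end Pool.Agent.X333.MS
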